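import Pool.Agent.Lib.MP_28303a_al.NT.Fin

/-! # The class of groups with trivial `K₀` -/

set_option autoImplicit false
set_option linter.unusedSectionVars false
set_option linter.unusedVariables false

namespace Pool.Agent.NegK.NT

universe u

open Pool.Agent.NegK.TW Pool.Agent.NegK.TT

/-- `K₀(R) → K₀(R[G])` is surjective for all regular rings `R`. -/
def InK (G : Type u) [Group G] : Prop :=
  ∀ (R : Type u) [Ring R], RegularRing R → Function.Surjective (K0.map (cst R G))

theorem inK_loc (G : Type u) [Group G]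
    (h : ∀ S : Finset G, ∃ H : Subgroup G, (∀ s ∈ S, s ∈ H) ∧ InK H) : InK G := by
  classical
  intro R _ hR
  rw [← AddMonoidHom.range_eq_top, eq_top_iff]
  intro z _
  refine Pool.Agent.NegK.H50.K0_eq_top (H := (K0.map (cst R G)).range) ?_ z
  intro p
  obtain ⟨H, hS, hH⟩ := h (Finset.univ.biUnion fun a => Finset.univ.biUnion fun b =>
      (p.e a b).coeff.support)
  have hF : Function.Injective H.subtype := H.subtype_injective
  have hsupp : MSupp (Set.range H.subtype) p.e := by
    rintro a b g hg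
    refine ⟨⟨g, hS g ?_⟩, rfl⟩
    rw [Finset.mem_biUnion]
    refine ⟨a, Finset.mem_univ _, ?_⟩
    rw [Finset.mem_biUnion]
    exact ⟨b, Finset.mem_univ _, Finsupp.mem_support_iff.2 hg⟩
  obtain ⟨β, hβ⟩ := MSupp.exists_map hF hsupp
  have hinj : Function.Injective (fun γ : Matrix _ _ (MonoidAlgebra R H) =>
      (γ.map (mdr R H.subtype) : Matrix (Fin p.n) (Fin p.n) _)) := by
    intro x y hxy
    ext1 a b
    exact mdr_injective hF (congrFun (congrFun hxy a) b)
  have hidem : β * β = β := by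
    apply hinj
    show (β * β).map (mdr R H.subtype) = β.map (mdr R H.subtype)
    rw [Matrix.map_mul, hβ, p.idem]
  obtain ⟨x, hx⟩ := hH R hR (mcls β hidem)
  refine ⟨x, ?_⟩
  have h1 : K0.map (mdr R H.subtype) (mcls β hidem) = mcls p.e p.idem := by
    rw [mcls_map]
    exact mcls_congr _ hβ
  rw [← mcls_self p, ← h1, ← hx, k0_map_map, mdr_comp_cst]

theorem inK_of_gen {Γ : Type u} [Group Γ] (Y : Trees Γ)
    (h : ∀ (k : Type u) [Ring k], RegularRing k → ⨆ v, img k (Y.st v) = ⊤)
    (hst : ∀ v, InK (Y.st v)) : InK Γ := by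
  intro R _ hR
  rw [← AddMonoidHom.range_eq_top, eq_top_iff, ← h R hR]
  refine iSup_le fun v => ?_
  rintro _ ⟨y, rfl⟩
  obtain ⟨x, rfl⟩ := hst v R hR y
  exact ⟨x, by rw [k0_map_map, mdr_comp_cst]⟩

theorem inL_of_gen {Γ : Type u} [Group Γ] (Y : Trees Γ)
    (h : ∀ (k : Type u) [Ring k], RegularRing k → ⨆ v, img k (Y.st v) = ⊤)
    (hst : ∀ v, H19.InL (Y.st v)) : H19.InL Γ := by
  intro R _ hR
  have h1 := h (LaurentPolynomial R) (H78.lreg H50.ext R hR)
  intro z
  have h2 : (⊤ : AddSubgroup (K0 (LG R Γ))) ≤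
      (K0.map (cmap Γ (LaurentPolynomial.C : R →+* LaurentPolynomial R))).range := by
    rw [← h1]
    refine iSup_le fun v => ?_
    rintro _ ⟨x, rfl⟩
    obtain ⟨y, rfl⟩ := hst v R hR x
    refine ⟨K0.map (mdr R (Y.st v).subtype) y, ?_⟩
    rw [k0_map_map, k0_map_map, H19.mdr_cmap]
  exact h2 (AddSubgroup.mem_top z)

theorem inK_of_subsingleton (G : Type u) [Group G] (h : ∀ g : G, g = 1) : InK G := by
  intro R _ hR
  have e : Function.Surjective (cst R G) := by
    intro x
    refine ⟨x.coeff 1, ?_⟩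
    refine MonoidAlgebra.ext (Finsupp.ext fun g => ?_)
    rw [h g]
    simp [cst]
  have e2 : Function.Injective (cst R G) := by
    intro a b hab
    have := congrArg (fun y : MonoidAlgebra R G => y.coeff 1) hab
    simpa [cst] using this
  let E : R ≃+* MonoidAlgebra R G := RingEquiv.ofBijective (cst R G) ⟨e2, e⟩
  intro z
  refine ⟨K0.map (E.symm : MonoidAlgebra R G →+* R) z, ?_⟩
  rw [k0_map_map]
  have h3 : (cst R G).comp (E.symm : MonoidAlgebra R G →+* R) = RingHom.id _ :=
    RingHom.ext fun a => E.apply_symm_apply a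
  rw [h3, k0_map_id]

end Pool.Agent.NegK.NT
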