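import Pool.Agent.Lib.MP_28303a_al.NT.H61.Asm
import Pool.Agent.Lib.MP_28303a_al.NT.InK
import Pool.Agent.Lib.MP_28303a_al.NT5.Cor3

/-! # The main theorem for products of trees -/

set_option autoImplicit false
set_option linter.unusedSectionVars false
set_option linter.unusedVariables false

namespace Pool.Agent.NegK.NT

universe u

open Pool.Agent.NegK.TW Pool.Agent.NegK.TT

theorem inL_of_inRC (G : Type u) [Group G] (h : InRC G) : H19.InL G :=
  ((TT.main.{u}).2.2.2.1 G).2.1 h

theorem trees_inL {Γ : Type u} [Group Γ] (Y : Trees Γ) (h : ∀ v, InRC (Y.st v)) : H19.InL Γ :=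
  inL_of_gen Y (fun k _ hk => trees Y h k hk) fun v => inL_of_inRC _ (h v)

theorem trees_inK {Γ : Type u} [Group Γ] (Y : Trees Γ) (h : ∀ v, InRC (Y.st v))
    (h' : ∀ v, InK (Y.st v)) : InK Γ :=
  inK_of_gen Y (fun k _ hk => trees Y h k hk) h'

theorem vanish {Γ : Type u} [Group Γ] (h : H19.InL Γ) (R : Type u) [Ring R] (hR : RegularRing R)
    (n : ℕ) : Subsingleton (KNeg (n + 1) (MonoidAlgebra R Γ)) :=
  ((TT.main.{u}).2.2.2.1 Γ).1 h R hR n

/-- The augmentation. -/
noncomputable def aug (R : Type u) [Ring R] (G : Type u) [Group G] : MonoidAlgebra R G →+* R :=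
  MonoidAlgebra.liftNCRingHom (RingHom.id R) (1 : G →* R) fun a b => Commute.one_right a

theorem aug_single (R : Type u) [Ring R] (G : Type u) [Group G] (g : G) (x : R) :
    aug R G (MonoidAlgebra.single g x) = x := by
  show MonoidAlgebra.liftNC ((RingHom.id R : R →+* R) : R →+ R) (1 : G →* R)
    (MonoidAlgebra.single g x) = x
  rw [MonoidAlgebra.liftNC_single]
  simp

theorem aug_cst (R : Type u) [Ring R] (G : Type u) [Group G] :
    (aug R G).comp (cst R G) = RingHom.id R :=
  RingHom.ext fun x => aug_single R G 1 x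

theorem cmap_cst {R R' : Type u} [Ring R] [Ring R'] (G : Type u) [Group G] (f : R →+* R') :
    (cmap G f).comp (cst R G) = (cst R' G).comp f :=
  RingHom.ext fun x => by
    show MonoidAlgebra.mapRingHom G f (MonoidAlgebra.single 1 x) =
      MonoidAlgebra.single 1 (f x)
    rw [MonoidAlgebra.mapRingHom_single]

theorem inL_of_inK {Γ : Type u} [Group Γ] (h : InK Γ) : H19.InL Γ := by
  intro R _ hR
  have h1 : H19.InL PUnit.{u + 1} := inL_of_inRC _ (inRC_of_inN inN_triv)
  have h2 : Function.Surjective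
      (K0.map (LaurentPolynomial.C : R →+* LaurentPolynomial R)) := by
    intro z
    obtain ⟨x, hx⟩ := h1 R hR (K0.map (cst (LaurentPolynomial R) PUnit.{u + 1}) z)
    obtain ⟨y, rfl⟩ := inK_of_subsingleton PUnit.{u + 1} (fun g => rfl) R hR x
    refine ⟨y, ?_⟩
    have h3 := congrArg (K0.map (aug (LaurentPolynomial R) PUnit.{u + 1})) hx
    rw [k0_map_map, k0_map_map, k0_map_map, RingHom.comp_assoc, cmap_cst, ← RingHom.comp_assoc,
      aug_cst, k0_map_id, RingHom.id_comp] at h3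
    exact h3
  intro z
  obtain ⟨x, rfl⟩ := h (LaurentPolynomial R) (H78.lreg H50.ext R hR) z
  obtain ⟨y, rfl⟩ := h2 x
  refine ⟨K0.map (cst R Γ) y, ?_⟩
  rw [k0_map_map, k0_map_map, cmap_cst]

theorem inK_bij {Γ : Type u} [Group Γ] (h : InK Γ) (R : Type u) [Ring R] (hR : RegularRing R) :
    Function.Bijective (K0.map (cst R Γ)) := by
  refine ⟨?_, h R hR⟩
  intro x y hxy
  have h2 := congrArg (K0.map (aug R Γ)) hxy
  rw [k0_map_map, k0_map_map, aug_cst, k0_map_id, k0_map_id] at h2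
  exact h2

theorem matrix (A : Type u) [CommRing A] (N : ℕ) (hN : 0 < N) (hA : (N : A) = 0)
    (K : Type u) [Field K] (hK : H70.Rig K) (Γ : Type u) [Group Γ] (htf : TorsionFree Γ)
    (χ : Γ →* GL (Fin 2) A × GL (Fin 2) K) (hχ : Function.Injective χ) : InK Γ :=
  NT5.gl2_inj3 (fun G _ h => inK_loc G h) (fun Γ _ Y h h' => trees_inK Y h h')
    (fun G _ h => inK_of_subsingleton G h) A N hN hA K hK Γ htf χ hχ

theorem matrix_ker (A : Type u) [CommRing A] (N : ℕ) (hN : 0 < N) (hA : (N : A) = 0)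
    (K : Type u) [Field K] (hK : H70.Rig K) (Γ : Type u) [Group Γ]
    (χ : Γ →* GL (Fin 2) A × GL (Fin 2) K) (htf : TorsionFree χ.range) (hker : InN χ.ker) :
    H19.InL Γ := by
  refine NT5.gl2_ker3 (fun G _ h => ((TT.main.{u}).2.2.2.1 G).2.2.2.2.1 h)
    (fun Γ _ Y h => trees_inL Y h) A N hN hA K hK Γ ((MonoidHom.fst _ _).comp χ)
    ((MonoidHom.snd _ _).comp χ) ?_ ?_
  · intro g n hn h1 h2
    have h3 : (⟨χ g, g, rfl⟩ : χ.range) = 1 := htf _ n hn (Subtype.ext (Prod.ext h1 h2))
    have h4 : χ g = 1 := congrArg Subtype.val h3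
    exact ⟨congrArg Prod.fst h4, congrArg Prod.snd h4⟩
  · have h1 : (((MonoidHom.fst _ _).comp χ).ker ⊓ ((MonoidHom.snd _ _).comp χ).ker :
        Subgroup Γ) = χ.ker := by
      ext g
      constructor
      · rintro ⟨h1, h2⟩
        exact Prod.ext h1 h2
      · intro h
        exact ⟨congrArg Prod.fst h, congrArg Prod.snd h⟩
    rw [h1]
    exact hker

end Pool.Agent.NegK.NT
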