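import Pool.Agent.Lib.MP_28303a_al.NT.Sys

/-! # Labelled complexes -/

set_option autoImplicit false
set_option linter.unusedSectionVars false
set_option linter.unusedVariables false

namespace Pool.Agent.NegK.NT

universe u

open CategoryTheory Limits Pretriangulated

/-- The entries of a linear map of free modules: the coefficient of `g` at the place `(i, j)`. -/
noncomputable def ent {k : Type u} [Ring k] {Γ : Type u} [Group Γ] {ι ι' : Type u}
    (f : (ι →₀ MonoidAlgebra k Γ) →ₗ[MonoidAlgebra k Γ] (ι' →₀ MonoidAlgebra k Γ)) (i : ι) (j : ι')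
    (g : Γ) : k := (f (Finsupp.single i 1) j).coeff g

section

variable {Γ : Type u} [Group Γ] (T : Sys Γ)

/-- Labelled complexes: a finite complex over `T.P S` with labels of the basis elements and a
grading of the labels, such that the entries of the differential strictly increase the grading or
are integers at `g = 1` between elements with the same label; and with null-homotopies of the
identity of `L_j E`, `j ∈ J`, whose entries are integers at `g = 1` between elements with the same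
label (and locations which increase in the directions different from `j`). -/
structure Sys.Lab (S J : Finset (Fin T.m)) (k : Type u) [Ring k] where
  E : CochainComplex (Loc k (T.P S)) ℤ
  fin : FinC E
  β : Type u
  π : ∀ n, (E.X n).ι → β
  gr : β → ℕ
  dgr : ∀ (n n' : ℤ) (x : (E.X n).ι) (y : (E.X n').ι) (g : Γ),
    ent (Loc.lin (E.d n n')) x y g ≠ 0 → gr (π n x) < gr (π n' y) ∨
      (g = 1 ∧ π n x = π n' y ∧ ∃ z : ℤ, ent (Loc.lin (E.d n n')) x y g = z)
  c : Fin T.m → ∀ n n' : ℤ,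
    (E.X n).F →ₗ[MonoidAlgebra k Γ] (E.X n').F
  cd : ∀ j ∈ J, ∀ n' n n'' : ℤ, n' + 1 = n → n + 1 = n'' →
    Loc.lin (E.d n' n) ∘ₗ c j n n' + c j n'' n ∘ₗ Loc.lin (E.d n n'') = LinearMap.id
  csp : ∀ j ∈ J, ∀ (n n' : ℤ) (x : (E.X n).ι) (y : (E.X n').ι) (g : Γ),
    ent (c j n n') x y g ≠ 0 → g = 1 ∧ π n x = π n' y ∧ (∃ z : ℤ, ent (c j n n') x y g = z) ∧
      ∀ i ∈ S, i ≠ j → (E.X n).loc x i ≤ (E.X n').loc y i

namespace Sys

variable {T} {S J : Finset (Fin T.m)} {k : Type u} [Ring k]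

/-- The condition on the new locations in the direction `i`. -/
def Lab.Ok (Λ : T.Lab S J k) (i : Fin T.m) (l : Λ.β → T.B i) : Prop :=
  ∀ (n n' : ℤ) (x : (Λ.E.X n).ι) (y : (Λ.E.X n').ι) (g : Γ),
    ent (Loc.lin (Λ.E.d n n')) x y g ≠ 0 → l (Λ.π n x) ≤ g • l (Λ.π n' y)

/-- The new objects. -/
abbrev Lab.rX (Λ : T.Lab S J k) (i : Fin T.m) (l : Λ.β → T.B i) (S' : Finset (Fin T.m)) (n : ℤ) :
    Loc k (T.P S') :=
  ⟨(Λ.E.X n).ι, fun x => Function.update ((Λ.E.X n).loc x) i (l (Λ.π n x))⟩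

theorem Lab.rsp (Λ : T.Lab S J k) (i : Fin T.m) (l : Λ.β → T.B i) (hl : Λ.Ok i l)
    (S' : Finset (Fin T.m)) (hS : S' ⊆ insert i S) (n n' : ℤ) :
    Loc.Spt (Λ.rX i l S' n) (Λ.rX i l S' n')
      (Loc.lin (A := Λ.E.X n) (A' := Λ.E.X n') (Λ.E.d n n')) := by
  intro x y g hg a ha
  show Function.update ((Λ.E.X n).loc x) i (l (Λ.π n x)) a ≤
    g • Function.update ((Λ.E.X n').loc y) i (l (Λ.π n' y)) a
  by_cases hai : a = i
  · subst hai
    rw [Function.update_self, Function.update_self]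
    exact hl n n' x y g hg
  · rw [Function.update_of_ne hai, Function.update_of_ne hai]
    exact Loc.spt_lin (Λ.E.d n n') x y g hg a (Finset.mem_of_mem_insert_of_ne (hS ha) hai)

/-- The complex with the new locations in the direction `i`; the linear maps are the same. -/
noncomputable def Lab.rl (Λ : T.Lab S J k) (i : Fin T.m) (l : Λ.β → T.B i) (hl : Λ.Ok i l)
    (S' : Finset (Fin T.m)) (hS : S' ⊆ insert i S) : CochainComplex (Loc k (T.P S')) ℤ where
  X n := Λ.rX i l S' n
  d n n' := Loc.hm (A := Λ.rX i l S' n) (A' := Λ.rX i l S' n')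
    (Loc.lin (A := Λ.E.X n) (A' := Λ.E.X n') (Λ.E.d n n')) (Λ.rsp i l hl S' hS n n')
  shape n n' h := by
    refine Loc.hom_ext ?_
    rw [Loc.lin_hm, Λ.E.shape n n' h]
    rfl
  d_comp_d' n n' n'' h h' := by
    refine Loc.hom_ext ?_
    rw [Loc.lin_comp, Loc.lin_hm, Loc.lin_hm]
    exact (Loc.lin_comp (Λ.E.d n n') (Λ.E.d n' n'')).symm.trans
      (congrArg Loc.lin (Λ.E.d_comp_d n n' n''))

end Sys

/-! ### Statements -/

/-- KOS: the objects of `P_S^J(k)` are retracts of labelled complexes. -/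
def Sys.KOS : Prop :=
  ∀ (S J : Finset (Fin T.m)), J ⊆ S → ∀ (k : Type u) [Ring k] (X : KK k (T.P S)),
    T.PJ S J k X → ∃ Λ : T.Lab S J k, Nonempty (Retract X (qo Λ.E))

/-- LAM: one can choose new locations in a direction `i` subject to finitely many conditions. -/
def Sys.LAM : Prop :=
  ∀ (S J : Finset (Fin T.m)) (k : Type u) [Ring k] (Λ : T.Lab S J k) (i : Fin T.m)
    (C : Set (T.B i × Γ × Λ.β)), C.Finite →
    ∃ l : Λ.β → T.B i, Λ.Ok i l ∧ ∀ c ∈ C, c.1 ≤ c.2.1 • l c.2.2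

/-- RLJ: the complexes with new locations are in `P_{S'}^J`. -/
def Sys.RLJ : Prop :=
  ∀ (S J : Finset (Fin T.m)) (k : Type u) [Ring k] (Λ : T.Lab S J k) (i : Fin T.m)
    (l : Λ.β → T.B i) (hl : Λ.Ok i l) (S' : Finset (Fin T.m)) (hS : S' ⊆ insert i S),
    i ∉ J → T.PJ S' J k (qo (Λ.rl i l hl S' hS))

/-- F3: the idempotents of the objects of `P_S^J(k)` in the direction `i`. -/
def Sys.F3 : Prop :=
  ∀ (S J : Finset (Fin T.m)) (i : Fin T.m), J ⊆ S → i ∉ S → ∀ (k : Type u) [Ring k]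
    (X : KK k (T.P S)), T.PJ S J k X →
    ∃ (C C' : KK k (T.P (insert i S))) (t f : C ⟶ C')
      (s : X ⟶ (T.L k (Finset.subset_insert i S)).obj C)
      (r : (T.L k (Finset.subset_insert i S)).obj C ⟶ X),
      T.PJ (insert i S) J k C ∧ T.PJ (insert i S) J k C' ∧
      IsIso ((T.L k (Finset.subset_insert i S)).map t) ∧ s ≫ r = 𝟙 X ∧
      (T.L k (Finset.subset_insert i S)).map f =
        (r ≫ s) ≫ (T.L k (Finset.subset_insert i S)).map t

/-- RET: the objects of `P_S^J(k[t, t⁻¹])` are retracts of objects which extend to `k[t]`. -/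
def Sys.RET : Prop :=
  ∀ (S J : Finset (Fin T.m)), J ⊆ S → ∀ (k : Type u) [Ring k]
    (X : KK (LaurentPolynomial k) (T.P S)), T.PJ S J (LaurentPolynomial k) X →
    ∃ Z : KK (Polynomial k) (T.P S), T.PJ S J (Polynomial k) Z ∧
      Nonempty (Retract X ((loc k (T.P S)).obj Z))

/-- STEPB. -/
def Sys.STEPB : Prop :=
  ∀ (S J : Finset (Fin T.m)) (i : Fin T.m), J ⊆ S → i ∉ S →
    T.EXT (insert i S) (insert i J) → T.LIFT S J i

/-- BASE. -/
def Sys.BASE : Prop := ∀ J : Finset (Fin T.m), T.EXT Finset.univ J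

end

/-! ### Statements on the homotopy categories -/

section

variable (k : Type u) [Ring k] {Γ : Type u} [Group Γ] {B : Type u} [MulAction Γ B] (P : Pre Γ B)

/-- The powers of the variable commute with everything. -/
theorem xpcen {k : Type u} [Ring k] (n : ℕ) (x : Polynomial k) :
    Polynomial.X ^ n * x = x * Polynomial.X ^ n := Polynomial.X_pow_mul

/-- Multiplication by `t ^ n` on complexes over `k[t]`. -/
noncomputable abbrev ttp {k : Type u} [Ring k] {Γ : Type u} [Group Γ] {B : Type u} [MulAction Γ B]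
    {P : Pre Γ B} (n : ℕ) : 𝟭 (KK (Polynomial k) P) ⟶ 𝟭 (KK (Polynomial k) P) :=
  zz (Polynomial.X ^ n) (xpcen n)

/-- CD: clearing denominators. -/
def CD : Prop :=
  ∀ X Y : KK (Polynomial k) P, Per X →
    (∀ g : (loc k P).obj X ⟶ (loc k P).obj Y, ∃ (n : ℕ) (f : X ⟶ Y),
      (loc k P).map f = g ≫ (tn (n : ℤ)).app _) ∧
    (∀ f : X ⟶ Y, (loc k P).map f = 0 → ∃ n : ℕ, f ≫ (ttp n).app Y = 0)

/-- KEY: the triangle of the multiplication by `t`. -/
def KEY : Prop :=
  ∀ X : KK (Polynomial k) P, ∃ (f : (rst k P).obj X ⟶ (ev0 k P).obj X)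
    (w : (ev0 k P).obj X ⟶ ((rst k P).obj X)⟦(1 : ℤ)⟧),
    Pretriangulated.Triangle.mk ((rst k P).map (tt.app X)) f w ∈ distTriang (KK k P)

/-- TORS: perfect objects over `k[t]` which vanish over `k[t, t⁻¹]` are perfect over `k`. -/
def TORS : Prop :=
  ∀ X : KK (Polynomial k) P, Per X → IsZero ((loc k P).obj X) → Per ((rst k P).obj X)

end

end Pool.Agent.NegK.NT
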