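import Pool.Agent.Lib.MP_28303a_al.NT.Lab

/-! # Classes in `K₀` of perfect located complexes -/

set_option autoImplicit false
set_option linter.unusedSectionVars false
set_option linter.unusedVariables false

namespace Pool.Agent.NegK.NT

universe u

open CategoryTheory Limits Pretriangulated Idempotents

section

variable (k : Type u) [Ring k] {Γ : Type u} [Group Γ] {B : Type u} [MulAction Γ B] (P : Pre Γ B)

instance : HasFiniteProducts (Loc k P) := hasFiniteProducts_of_has_binary_and_terminal

instance : HasFiniteBiproducts (Loc k P) := HasFiniteBiproducts.of_hasFiniteProducts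

/-- Located projective modules: the pairs of a located free module and an idempotent. -/
abbrev KL := Karoubi (Loc k P)

/-- The homotopy category of complexes of located projective modules. -/
abbrev KKL := HomotopyCategory (KL k P) (ComplexShape.up ℤ)

instance : HasFiniteBiproducts (KL k P) := Karoubi.karoubi_hasFiniteBiproducts

instance : HasBinaryBiproducts (KL k P) := hasBinaryBiproducts_of_finite_biproducts _

instance : HasZeroObject (KL k P) := hasZeroObject_of_hasFiniteBiproducts _

/-- From free to projective modules. -/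
noncomputable abbrev tk : KK k P ⥤ KKL k P :=
  (toKaroubi (Loc k P)).mapHomotopyCategory (ComplexShape.up ℤ)

end

section

variable {k : Type u} [Ring k] {Γ : Type u} [Group Γ] {B B' : Type u} [MulAction Γ B]
  [MulAction Γ B'] {P : Pre Γ B} {Q : Pre Γ B'}

/-- Change of the locations. -/
noncomputable def kp (m : Loc.Mono P Q) : KL k P ⥤ KL k Q where
  obj X := ⟨(Loc.push m).obj X.X, (Loc.push m).map X.p, by rw [← Functor.map_comp, X.idem]⟩
  map f := ⟨(Loc.push m).map f.f,
    ((Loc.push m).map_comp _ _).symm.trans (congrArg _ f.comm)⟩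
  map_id X := rfl
  map_comp f g := rfl

instance (m : Loc.Mono P Q) : (kp (k := k) m).Additive where
  map_add := rfl

/-- The idempotent matrix of an idempotent endomorphism. -/
noncomputable def idemL (A : Loc k P) [Finite A.ι] (e : A ⟶ A) (he : e ≫ e = e) :
    Idem (MonoidAlgebra k Γ) where
  n := Nat.card A.ι
  e := Matrix.of fun i j =>
    (Loc.lin e (Finsupp.single ((Finite.equivFin A.ι).symm i) 1)) ((Finite.equivFin A.ι).symm j)
  idem := by
    have := Fintype.ofFinite A.ι
    refine Matrix.ext fun i j => ?_
    rw [Matrix.mul_apply, Matrix.of_apply]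
    have h : (Loc.lin (e ≫ e) (Finsupp.single ((Finite.equivFin A.ι).symm i) 1))
        ((Finite.equivFin A.ι).symm j) =
      (Loc.lin e (Finsupp.single ((Finite.equivFin A.ι).symm i) 1))
        ((Finite.equivFin A.ι).symm j) := by rw [he]
    rw [Loc.lin_comp, LinearMap.comp_apply, Loc.map_apply, Finsupp.sum_fintype _ _
      (fun _ => zero_mul _)] at h
    rw [← h]
    exact (Equiv.sum_comp (Finite.equivFin A.ι).symm fun a =>
      (Loc.lin e (Finsupp.single ((Finite.equivFin A.ι).symm i) 1)) a *
        (Loc.lin e (Finsupp.single a 1)) ((Finite.equivFin A.ι).symm j))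

open Classical in
/-- The class in `K₀` of a located projective module (zero if it is not finite). -/
noncomputable def clsK (X : KL k P) : K0 (MonoidAlgebra k Γ) :=
  if h : Finite X.X.ι then K0.cls (@idemL k _ Γ _ B _ P X.X h X.p X.idem) else 0

/-- Finite complexes of located projective modules. -/
structure FinK (E : CochainComplex (KL k P) ℤ) : Prop where
  fin : ∀ n, Finite (E.X n).X.ι
  bdd : ∃ a b : ℤ, ∀ n, (n < a ∨ b < n) → IsZero (E.X n)

/-- The Euler characteristic. -/
noncomputable def chi (E : CochainComplex (KL k P) ℤ) : K0 (MonoidAlgebra k Γ) :=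
  ∑ᶠ n : ℤ, (Int.negOnePow n : ℤ) • clsK (E.X n)

end

/-! ### Statements -/

/-- IC: perfect objects are isomorphic to finite complexes of located projective modules. -/
def IC (k : Type u) [Ring k] {Γ : Type u} [Group Γ] {B : Type u} [MulAction Γ B] (P : Pre Γ B) :
    Prop :=
  ∀ X : KK k P, Per X → ∃ E : CochainComplex (KL k P) ℤ, FinK E ∧
    Nonempty ((tk k P).obj X ≅ (HomotopyCategory.quotient (KL k P) (ComplexShape.up ℤ)).obj E)

/-- EUL: the Euler characteristic is a homotopy invariant. -/
def EUL (k : Type u) [Ring k] {Γ : Type u} [Group Γ] {B : Type u} [MulAction Γ B] (P : Pre Γ B) :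
    Prop :=
  ∀ E E' : CochainComplex (KL k P) ℤ, FinK E → FinK E' →
    Nonempty ((HomotopyCategory.quotient (KL k P) (ComplexShape.up ℤ)).obj E ≅
      (HomotopyCategory.quotient (KL k P) (ComplexShape.up ℤ)).obj E') → chi E = chi E'

/-- SPL: idempotents of located free modules split in the homotopy category. -/
def SPL (k : Type u) [Ring k] {Γ : Type u} [Group Γ] {B : Type u} [MulAction Γ B] (P : Pre Γ B) :
    Prop :=
  ∀ Y : KL k P, Finite Y.X.ι → ∃ X : KK k P, Per X ∧ Nonempty ((tk k P).obj X ≅
    (HomotopyCategory.quotient (KL k P) (ComplexShape.up ℤ)).obj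
      ((HomologicalComplex.single (KL k P) (ComplexShape.up ℤ) 0).obj Y))

section

variable {Γ : Type u} [Group Γ] (T : Sys Γ)

/-- A size of the boxes. -/
def Sys.Sized : Prop :=
  ∃ sz : T.Box → ℕ, (∀ (g : Γ) x, sz (g • x) = sz x) ∧
    ∀ x y : T.Box, (∀ i, x i ≤ y i) → x ≠ y → sz x < sz y

/-- The part of `K₀(k[Γ])` which is generated by the stabilizers of the boxes. -/
noncomputable def Sys.GEN (k : Type u) [Ring k] : AddSubgroup (K0 (MonoidAlgebra k Γ)) :=
  ⨆ U : T.Box, (K0.map (MonoidAlgebra.mapDomainRingHom k
    (MulAction.stabilizer Γ U).subtype)).range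

/-- GRB: the located projective modules have classes in this part. -/
def Sys.GRB : Prop :=
  T.Sized → ∀ (k : Type u) [Ring k] (Y : KL k (T.P Finset.univ)), clsK Y ∈ T.GEN k

/-- LIFTS: every perfect object over `∅` comes from one over `univ`. -/
def Sys.LIFTS (k : Type u) [Ring k] : Prop :=
  ∀ X : KK k (T.P ∅), Per X → ∃ D : KK k (T.P Finset.univ), Per D ∧
    Nonempty ((T.L k (Finset.empty_subset _)).obj D ≅ X)

/-- KGEN: the conclusion for the ring `k`. -/
def Sys.KGEN : Prop :=
  T.Sized → ∀ (k : Type u) [Ring k], T.LIFTS k → T.GEN k = ⊤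

end

end Pool.Agent.NegK.NT
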