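import Pool.Agent.Lib.MP_28303a_al.NT.Kar
import Pool.Agent.Lib.MP_28303a_al.TT.Main3

/-! # From the boxes to the groups -/

set_option autoImplicit false
set_option linter.unusedSectionVars false
set_option linter.unusedVariables false

namespace Pool.Agent.NegK.NT

universe u

open CategoryTheory Limits Pretriangulated
open Pool.Agent.NegK.TW Pool.Agent.NegK.TT

/-- Actions on `m` trees without inversions. -/
structure Trees (Γ : Type u) [Group Γ] where
  m : ℕ
  V : Fin m → Type u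
  act : ∀ i, MulAction Γ (V i)
  G : ∀ i, SimpleGraph (V i)
  tree : ∀ i, TreeAct Γ (G i)

attribute [instance] Trees.act

/-- The stabilizer of a tuple of vertices. -/
def Trees.st {Γ : Type u} [Group Γ] (Y : Trees Γ) (v : ∀ i, Y.V i) : Subgroup Γ :=
  ⨅ i, MulAction.stabilizer Γ (v i)

/-- The boxes of finite subtrees. -/
structure Trees.IsSys {Γ : Type u} [Group Γ] (Y : Trees Γ) (T : Sys Γ) : Prop where
  sized : T.Sized
  st : ∀ U : T.Box, ∃ v : ∀ i, Y.V i, MulAction.stabilizer Γ U ≤ Y.st v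

/-- The K-groups are generated by the stabilizers. -/
theorem gen_of {Γ : Type u} [Group Γ] (T : Sys Γ)
    (hI : ∀ (k : Type u) [Ring k], RegularRing k → T.LIFTS k) (hK : T.KGEN) (hs : T.Sized)
    (k : Type u) [Ring k] (hk : RegularRing k) : T.GEN k = ⊤ := hK hs k (hI k hk)

theorem img_le {k : Type u} [Ring k] {Γ : Type u} [Group Γ] {H K : Subgroup Γ} (h : H ≤ K) :
    img k H ≤ img k K := by
  rintro _ ⟨x, rfl⟩
  refine ⟨K0.map (mdr k (Subgroup.inclusion h)) x, ?_⟩
  rw [k0_map_map, mdr_comp_mdr]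
  rfl

theorem gen_trees {Γ : Type u} [Group Γ] (Y : Trees Γ) (T : Sys Γ) (hY : Y.IsSys T)
    (hI : ∀ (k : Type u) [Ring k], RegularRing k → T.LIFTS k) (hK : T.KGEN)
    (k : Type u) [Ring k] (hk : RegularRing k) : ⨆ v, img k (Y.st v) = ⊤ := by
  rw [eq_top_iff, ← gen_of T hI hK hY.sized k hk]
  refine iSup_le fun U => ?_
  obtain ⟨v, hv⟩ := hY.st U
  exact le_trans (img_le hv) (le_iSup (fun v => img k (Y.st v)) v)

/-- The final form: the K-groups. -/
theorem kneg_trees {Γ : Type u} [Group Γ] (Y : Trees Γ) (T : Sys Γ) (hY : Y.IsSys T)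
    (hI : ∀ (k : Type u) [Ring k], RegularRing k → T.LIFTS k) (hK : T.KGEN)
    (R : Type u) [Ring R] (hR : RegularRing R) (n : ℕ) :
    ⨆ v, ((KNegFun n).hom (mdr R (Y.st v).subtype)).range = ⊤ :=
  H19.vgen (fun v => Y.st v) (fun k _ hk => gen_trees Y T hY hI hK k hk) n R hR

/-- The final form: the class of groups. -/
theorem inL_trees {Γ : Type u} [Group Γ] (Y : Trees Γ) (T : Sys Γ) (hY : Y.IsSys T)
    (hI : ∀ (k : Type u) [Ring k], RegularRing k → T.LIFTS k) (hK : T.KGEN)
    (hst : ∀ v, H19.InL (Y.st v)) : H19.InL Γ := by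
  intro R _ hR
  have h1 := gen_trees Y T hY hI hK (LaurentPolynomial R) (H78.lreg H50.ext R hR)
  intro z
  have h2 : (⊤ : AddSubgroup (K0 (LG R Γ))) ≤
      (K0.map (cmap Γ (LaurentPolynomial.C : R →+* LaurentPolynomial R))).range := by
    rw [← h1]
    refine iSup_le fun v => ?_
    rintro _ ⟨x, rfl⟩
    obtain ⟨y, rfl⟩ := hst v R hR x
    refine ⟨K0.map (mdr R (Y.st v).subtype) y, ?_⟩
    rw [k0_map_map, k0_map_map, H19.mdr_cmap]
  exact h2 (AddSubgroup.mem_top z)

end Pool.Agent.NegK.NT
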