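import Pool.Agent.Lib.MP_28303a_al.NT.Loc

/-! # Functors between categories of located free modules -/

set_option autoImplicit false
set_option linter.unusedSectionVars false
set_option linter.unusedVariables false

namespace Pool.Agent.NegK.NT

universe u

open CategoryTheory

namespace Loc

section

variable {k : Type u} [Ring k] {Γ : Type u} [Group Γ] {B B' : Type u} [MulAction Γ B]
  [MulAction Γ B'] {P : Pre Γ B} {Q : Pre Γ B'}

/-- An equivariant map of the sets of locations which is monotone. -/
structure Mono (P : Pre Γ B) (Q : Pre Γ B') where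
  φ : B → B'
  smul : ∀ (g : Γ) b, φ (g • b) = g • φ b
  le : ∀ {x y}, P.le x y → Q.le (φ x) (φ y)

/-- Change of the locations. -/
abbrev tr (m : Mono P Q) (A : Loc k P) : Loc k Q := ⟨A.ι, fun i => m.φ (A.loc i)⟩

theorem spt_tr (m : Mono P Q) {A A' : Loc k P} {f : A.F →ₗ[MonoidAlgebra k Γ] A'.F}
    (hf : Spt A A' f) : Spt (tr m A) (tr m A') f := by
  intro i j g hg
  have := m.le (hf i j g hg)
  rw [m.smul] at this
  exact this

/-- Change of the locations. -/
noncomputable def push (m : Mono P Q) : Loc k P ⥤ Loc k Q where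
  obj A := tr m A
  map f := ⟨f.1, spt_tr m f.2⟩
  map_id A := rfl
  map_comp f g := rfl

instance (m : Mono P Q) : (push (k := k) m).Additive where
  map_add := rfl

theorem lin_push (m : Mono P Q) {A A' : Loc k P} (f : A ⟶ A') :
    lin (A := (push m).obj A) (A' := (push m).obj A') ((push m).map f) = lin f := rfl

theorem spt_of_le (m m' : Mono P Q) (h : ∀ x, Q.le (m.φ x) (m'.φ x)) (A : Loc k P) :
    Spt (tr m A) (tr m' A) (LinearMap.id : A.F →ₗ[MonoidAlgebra k Γ] A.F) := by
  classical
  intro i j g hg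
  rw [LinearMap.id_apply, Finsupp.single_apply] at hg
  split_ifs at hg with h1
  · subst h1
    rw [MonoidAlgebra.one_def, MonoidAlgebra.coeff_single, Finsupp.single_apply] at hg
    split_ifs at hg with h2
    · rw [← h2, one_smul]
      exact h _
    · exact absurd rfl hg
  · exact absurd rfl hg

/-- The natural transformation of an inequality. -/
noncomputable def pushLe (m m' : Mono P Q) (h : ∀ x, Q.le (m.φ x) (m'.φ x)) :
    push (k := k) m ⟶ push m' where
  app A := ⟨LinearMap.id, spt_of_le m m' h A⟩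
  naturality A A' f := rfl

theorem lin_pushLe (m m' : Mono P Q) (h : ∀ x, Q.le (m.φ x) (m'.φ x)) (A : Loc k P) :
    lin (A := (push m).obj A) (A' := (push m').obj A) ((pushLe m m' h).app A) = (LinearMap.id : A.F →ₗ[MonoidAlgebra k Γ] A.F) := rfl

end

/-! ### Change of the ring -/

section

variable {k k' : Type u} [Ring k] [Ring k'] {Γ : Type u} [Group Γ] {B : Type u} [MulAction Γ B]
  {P : Pre Γ B} (φ : k →+* k')

/-- The map of free modules. -/
noncomputable def mf (ι : Type u) :
    (ι →₀ MonoidAlgebra k Γ) →+ (ι →₀ MonoidAlgebra k' Γ) :=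
  Finsupp.mapRange.addMonoidHom
    (MonoidAlgebra.mapRingHom Γ φ : MonoidAlgebra k Γ →+* MonoidAlgebra k' Γ).toAddMonoidHom

theorem mf_apply (ι : Type u) (x : ι →₀ MonoidAlgebra k Γ) (i : ι) :
    mf φ ι x i = MonoidAlgebra.mapRingHom Γ φ (x i) := rfl

theorem coeff_mf (ι : Type u) (x : ι →₀ MonoidAlgebra k Γ) (i : ι) (g : Γ) :
    (mf φ ι x i).coeff g = φ ((x i).coeff g) := by
  rw [mf_apply, MonoidAlgebra.coeff_mapRingHom]

theorem mf_smul (ι : Type u) (b : MonoidAlgebra k Γ) (x : ι →₀ MonoidAlgebra k Γ) :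
    mf φ ι (b • x) = MonoidAlgebra.mapRingHom Γ φ b • mf φ ι x := by
  ext1 i
  rw [mf_apply, Finsupp.smul_apply, Finsupp.smul_apply, mf_apply, smul_eq_mul, smul_eq_mul,
    map_mul]

theorem mf_single (ι : Type u) (i : ι) (b : MonoidAlgebra k Γ) :
    mf φ ι (Finsupp.single i b) = Finsupp.single i (MonoidAlgebra.mapRingHom Γ φ b) :=
  Finsupp.mapRange_single (hf := map_zero (MonoidAlgebra.mapRingHom Γ φ))

/-- The object with the same basis. -/
abbrev bo (A : Loc k P) : Loc k' P := ⟨A.ι, A.loc⟩

/-- Change of the ring: morphisms. -/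
noncomputable def bm {A A' : Loc k P} (f : A ⟶ A') : (bo A : Loc k' P) ⟶ bo A' :=
  ofB (A := bo A) (A' := bo A') (fun i => mf φ A'.ι (lin f (Finsupp.single i 1))) (by
    intro i j g hg
    rw [coeff_mf] at hg
    exact spt_lin f i j g fun h => hg (by rw [h, map_zero]))

theorem bm_mf {A A' : Loc k P} (f : A ⟶ A') (x : A.F) :
    lin (bm φ f) (mf φ A.ι x) = mf φ A'.ι (lin f x) := by
  induction x using Finsupp.induction_linear with
  | zero => rw [map_zero, map_zero, map_zero, map_zero]
  | add x y hx hy => rw [map_add, map_add, map_add, map_add, hx, hy]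
  | single i b =>
    have h1 : Finsupp.single i b = b • (Finsupp.single i (1 : MonoidAlgebra k Γ)) := by
      rw [Finsupp.smul_single, smul_eq_mul, mul_one]
    have h2 : mf φ A.ι (Finsupp.single i (1 : MonoidAlgebra k Γ)) = Finsupp.single i 1 := by
      rw [mf_single, map_one]
    rw [h1, mf_smul, map_smul, map_smul, mf_smul, h2, bm, lin_ofB (A := bo A) (A' := bo A')]

/-- Change of the ring. -/
noncomputable def bc : Loc k P ⥤ Loc k' P where
  obj A := bo A
  map f := bm φ f
  map_id A := ext_basis (A := bo A) (A' := bo A) fun i => by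
    rw [bm, lin_ofB (A := bo A) (A' := bo A), lin_id, LinearMap.id_apply, mf_single, map_one]
    rfl
  map_comp {A A' A''} f g := ext_basis (A := bo A) (A' := bo A'') fun i => by
    have h1 : lin (bm φ f) (Finsupp.single i 1) = mf φ A'.ι (lin f (Finsupp.single i 1)) :=
      lin_ofB (A := bo A) (A' := bo A') _ _ i
    have h2 : lin (bm φ (f ≫ g)) (Finsupp.single i 1) =
        mf φ A''.ι (lin (f ≫ g) (Finsupp.single i 1)) :=
      lin_ofB (A := bo A) (A' := bo A'') _ _ i
    rw [h2, lin_comp, LinearMap.comp_apply, ← bm_mf φ g, ← h1]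
    rfl

theorem lin_bc {A A' : Loc k P} (f : A ⟶ A') (x : A.F) :
    (lin ((bc φ).map f) : (bo A : Loc k' P).F →ₗ[MonoidAlgebra k' Γ] (bo A' : Loc k' P).F)
      (mf φ A.ι x) = mf φ A'.ι (lin f x) := bm_mf φ f x

instance : (bc (P := P) φ).Additive where
  map_add {A A'} {f g} := ext_basis (A := bo A) (A' := bo A') fun i => by
    change lin (bm φ (f + g)) _ = lin (bm φ f + bm φ g) _
    rw [lin_add, LinearMap.add_apply, bm, bm, bm, lin_ofB (A := bo A) (A' := bo A'),
      lin_ofB (A := bo A) (A' := bo A'), lin_ofB (A := bo A) (A' := bo A'), lin_add,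
      LinearMap.add_apply, map_add]

end

/-! ### Central elements -/

section

variable {k : Type u} [Ring k] {Γ : Type u} [Group Γ] {B : Type u} [MulAction Γ B]
  {P : Pre Γ B}

theorem cen_comm (z : k) (hz : ∀ x, z * x = x * z) (b : MonoidAlgebra k Γ) :
    MonoidAlgebra.single 1 z * b = b * MonoidAlgebra.single 1 z := by
  ext g
  rw [MonoidAlgebra.coeff_single_mul_apply, MonoidAlgebra.coeff_mul_single_apply, inv_one, one_mul,
    mul_one, hz]

/-- Multiplication by a central element. -/
noncomputable def cenL (z : k) (hz : ∀ x, z * x = x * z) (A : Loc k P) :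
    A.F →ₗ[MonoidAlgebra k Γ] A.F where
  toFun x := MonoidAlgebra.single (1 : Γ) z • x
  map_add' x y := smul_add _ _ _
  map_smul' b x := by
    rw [RingHom.id_apply, smul_smul, smul_smul, cen_comm z hz]

theorem cenL_spt (z : k) (hz : ∀ x, z * x = x * z) (A : Loc k P) : Spt A A (cenL z hz A) := by
  classical
  intro i j g hg
  change ((MonoidAlgebra.single (1 : Γ) z • Finsupp.single i (1 : MonoidAlgebra k Γ)) j).coeff g ≠ 0
    at hg
  rw [Finsupp.smul_single, smul_eq_mul, mul_one, Finsupp.single_apply] at hg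
  split_ifs at hg with h1
  · subst h1
    rw [MonoidAlgebra.coeff_single, Finsupp.single_apply] at hg
    split_ifs at hg with h2
    · rw [← h2, one_smul]
      exact P.refl _
    · exact absurd rfl hg
  · exact absurd rfl hg

/-- Multiplication by a central element, as a natural transformation. -/
noncomputable def cen (z : k) (hz : ∀ x, z * x = x * z) : 𝟭 (Loc k P) ⟶ 𝟭 (Loc k P) where
  app A := ⟨cenL z hz A, cenL_spt z hz A⟩
  naturality A A' f := hom_ext (LinearMap.ext fun x => (map_smul (lin f) _ x).symm)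

theorem lin_cen (z : k) (hz : ∀ x, z * x = x * z) (A : Loc k P) (x : A.F) :
    (lin ((cen z hz).app A) : A.F →ₗ[MonoidAlgebra k Γ] A.F) x =
      MonoidAlgebra.single (1 : Γ) z • x := rfl

end

end Loc

end Pool.Agent.NegK.NT
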