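import Pool.Agent.Lib.MP_28303a_al.NT.Res

/-! # The homotopy categories of located complexes -/

set_option autoImplicit false
set_option linter.unusedSectionVars false
set_option linter.unusedVariables false

namespace Pool.Agent.NegK.NT

universe u

open CategoryTheory Limits

/-! ### Homotopy categories -/

/-- The homotopy category of complexes of located free modules. -/
abbrev KK (k : Type u) [Ring k] {Γ : Type u} [Group Γ] {B : Type u} [MulAction Γ B]
    (P : Pre Γ B) := HomotopyCategory (Loc k P) (ComplexShape.up ℤ)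

/-- The object of the homotopy category. -/
noncomputable abbrev qo {k : Type u} [Ring k] {Γ : Type u} [Group Γ] {B : Type u} [MulAction Γ B]
    {P : Pre Γ B} (E : CochainComplex (Loc k P) ℤ) : KK k P :=
  (HomotopyCategory.quotient (Loc k P) (ComplexShape.up ℤ)).obj E

/-- The functor of homotopy categories. -/
noncomputable abbrev hk {k k' : Type u} [Ring k] [Ring k'] {Γ : Type u} [Group Γ] {B B' : Type u}
    [MulAction Γ B] [MulAction Γ B'] {P : Pre Γ B} {Q : Pre Γ B'} (F : Loc k P ⥤ Loc k' Q)
    [F.Additive] : KK k P ⥤ KK k' Q :=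
  F.mapHomotopyCategory (ComplexShape.up ℤ)

section

variable {k : Type u} [Ring k] {Γ : Type u} [Group Γ] {B : Type u} [MulAction Γ B] {P : Pre Γ B}

/-- Finite complexes. -/
structure FinC (E : CochainComplex (Loc k P) ℤ) : Prop where
  fin : ∀ n, Finite (E.X n).ι
  bdd : ∃ a b : ℤ, ∀ n, (n < a ∨ b < n) → IsEmpty (E.X n).ι

/-- Perfect objects: the retracts of finite complexes. -/
def Per (X : KK k P) : Prop :=
  ∃ E : CochainComplex (Loc k P) ℤ, FinC E ∧ Nonempty (Retract X (qo E))

/-- Multiplication by a central element on a complex. -/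
noncomputable def cenC (z : k) (hz : ∀ x, z * x = x * z) (E : CochainComplex (Loc k P) ℤ) :
    E ⟶ E where
  f i := (Loc.cen z hz).app (E.X i)
  comm' i j _ := ((Loc.cen z hz).naturality (E.d i j)).symm

/-- Multiplication by a central element. -/
noncomputable def zz (z : k) (hz : ∀ x, z * x = x * z) : 𝟭 (KK k P) ⟶ 𝟭 (KK k P) where
  app X := (HomotopyCategory.quotient (Loc k P) (ComplexShape.up ℤ)).map (cenC z hz X.as)
  naturality X Y f := by
    obtain ⟨f, rfl⟩ := (HomotopyCategory.quotient (Loc k P) (ComplexShape.up ℤ)).map_surjective f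
    change (HomotopyCategory.quotient _ _).map f ≫ (HomotopyCategory.quotient _ _).map _ =
      (HomotopyCategory.quotient _ _).map _ ≫ (HomotopyCategory.quotient _ _).map f
    rw [← Functor.map_comp, ← Functor.map_comp]
    congr 1
    exact HomologicalComplex.hom_ext _ _ fun i => (Loc.cen z hz).naturality (f.f i)

/-- The variable of the polynomial ring commutes with everything. -/
theorem xcen (x : Polynomial k) : Polynomial.X * x = x * Polynomial.X := Polynomial.X_mul

/-- The powers of the variable of the ring of Laurent polynomials commute with everything. -/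
theorem tcen (n : ℤ) (x : LaurentPolynomial k) :
    LaurentPolynomial.T n * x = x * LaurentPolynomial.T n := (LaurentPolynomial.commute_T n x).eq

/-- Multiplication by `t` on complexes over `k[t]`. -/
noncomputable abbrev tt : 𝟭 (KK (Polynomial k) P) ⟶ 𝟭 (KK (Polynomial k) P) :=
  zz Polynomial.X xcen

/-- Multiplication by `t ^ n` on complexes over `k[t, t⁻¹]`. -/
noncomputable abbrev tn (n : ℤ) :
    𝟭 (KK (LaurentPolynomial k) P) ⟶ 𝟭 (KK (LaurentPolynomial k) P) :=
  zz (LaurentPolynomial.T n) (tcen n)

variable (k P)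

/-- Localization: `k[t] → k[t, t⁻¹]`. -/
noncomputable abbrev loc : KK (Polynomial k) P ⥤ KK (LaurentPolynomial k) P :=
  hk (Loc.bc Polynomial.toLaurent)

/-- Extension: `k → k[t]`. -/
noncomputable abbrev ext : KK k P ⥤ KK (Polynomial k) P := hk (Loc.bc Polynomial.C)

/-- Evaluation at `t = 0`. -/
noncomputable abbrev ev0 : KK (Polynomial k) P ⥤ KK k P := hk (Loc.bc Polynomial.constantCoeff)

/-- Restriction of the scalars from `k[t]` to `k`. -/
noncomputable abbrev rst : KK (Polynomial k) P ⥤ KK k P := hk Loc.res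

end

/-! ### Boxes -/

/-- Directed partially ordered sets `B 0, ..., B (m - 1)` with actions of `Γ`. -/
structure Sys (Γ : Type u) [Group Γ] where
  m : ℕ
  B : Fin m → Type u
  act : ∀ i, MulAction Γ (B i)
  ord : ∀ i, PartialOrder (B i)
  mono : ∀ i (g : Γ) (x y : B i), x ≤ y → g • x ≤ g • y
  dir : ∀ i (x y : B i), ∃ z, x ≤ z ∧ y ≤ z
  ne : ∀ i, Nonempty (B i)

attribute [instance] Sys.act Sys.ord Sys.ne

section

variable {Γ : Type u} [Group Γ] (T : Sys Γ)

/-- The boxes. -/
abbrev Sys.Box : Type u := ∀ i, T.B i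

/-- The preorder which compares the coordinates in `S`. -/
def Sys.P (S : Finset (Fin T.m)) : Pre Γ T.Box where
  le x y := ∀ i ∈ S, x i ≤ y i
  refl x i _ := le_refl _
  trans h h' i hi := (h i hi).trans (h' i hi)
  smul g x y h i hi := T.mono i g _ _ (h i hi)

/-- Forgetting coordinates. -/
def Sys.fg {S' S : Finset (Fin T.m)} (h : S' ⊆ S) : Loc.Mono (T.P S) (T.P S') where
  φ x := x
  smul g x := rfl
  le h' i hi := h' i (h hi)

/-- Forgetting coordinates: the functor `L`. -/
noncomputable abbrev Sys.L (k : Type u) [Ring k] {S' S : Finset (Fin T.m)} (h : S' ⊆ S) :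
    KK k (T.P S) ⥤ KK k (T.P S') := hk (Loc.push (T.fg h))

/-- The class `P_S^J(k)`: the perfect objects `X` with `L_j X = 0` for `j ∈ J`. -/
structure Sys.PJ (S J : Finset (Fin T.m)) (k : Type u) [Ring k] (X : KK k (T.P S)) : Prop where
  per : Per X
  ac : ∀ j ∈ J, IsZero ((T.L k (S.erase_subset j)).obj X)

/-- Everything in `P_S^J(k[t, t⁻¹])` extends to `k[t]`. -/
def Sys.EXT (S J : Finset (Fin T.m)) : Prop :=
  ∀ (k : Type u) [Ring k], RegularRing k → ∀ X : KK (LaurentPolynomial k) (T.P S),
    T.PJ S J (LaurentPolynomial k) X → ∃ Y : KK (Polynomial k) (T.P S),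
      T.PJ S J (Polynomial k) Y ∧ Nonempty ((loc k (T.P S)).obj Y ≅ X)

/-- Everything in `P_S^J(k)` comes from `P_{S + i}^J(k)`. -/
def Sys.LIFT (S J : Finset (Fin T.m)) (i : Fin T.m) : Prop :=
  ∀ (k : Type u) [Ring k], RegularRing k → ∀ X : KK k (T.P S), T.PJ S J k X →
    ∃ D : KK k (T.P (insert i S)), T.PJ (insert i S) J k D ∧
      Nonempty ((T.L k (Finset.subset_insert i S)).obj D ≅ X)

end

end Pool.Agent.NegK.NT
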