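import Pool.Agent.Lib.MP_28303a_al.NK.Defs

/-! # Located free modules -/

set_option autoImplicit false
set_option linter.unusedSectionVars false
set_option linter.unusedVariables false

namespace Pool.Agent.NegK.NT

universe u

open CategoryTheory

/-- An invariant preorder on a set with an action of `Γ`. -/
structure Pre (Γ : Type u) [Group Γ] (B : Type u) [MulAction Γ B] where
  le : B → B → Prop
  refl : ∀ x, le x x
  trans : ∀ {x y z}, le x y → le y z → le x z
  smul : ∀ (g : Γ) {x y}, le x y → le (g • x) (g • y)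

/-- Located free modules: a basis with locations. -/
structure Loc (k : Type u) [Ring k] {Γ : Type u} [Group Γ] {B : Type u} [MulAction Γ B]
    (P : Pre Γ B) where
  ι : Type u
  loc : ι → B

section

variable {k : Type u} [Ring k] {Γ : Type u} [Group Γ] {B : Type u} [MulAction Γ B] {P : Pre Γ B}

namespace Loc

/-- The free module. -/
abbrev F (A : Loc k P) : Type u := A.ι →₀ MonoidAlgebra k Γ

/-- The condition on the supports. -/
def Spt (A A' : Loc k P) (f : A.F →ₗ[MonoidAlgebra k Γ] A'.F) : Prop :=
  ∀ i j g, (f (Finsupp.single i 1) j).coeff g ≠ 0 → P.le (A.loc i) (g • A'.loc j)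

theorem spt_id (A : Loc k P) : Spt A A LinearMap.id := by
  classical
  intro i j g h
  rw [LinearMap.id_apply, Finsupp.single_apply] at h
  split_ifs at h with hij
  · subst hij
    rw [MonoidAlgebra.one_def, MonoidAlgebra.coeff_single, Finsupp.single_apply] at h
    split_ifs at h with hg
    · rw [← hg, one_smul]
      exact P.refl _
    · exact absurd rfl h
  · exact absurd rfl h

theorem map_apply {A A' : Loc k P} (f : A.F →ₗ[MonoidAlgebra k Γ] A'.F) (x : A.F) (l : A'.ι) :
    f x l = x.sum fun j a => a * f (Finsupp.single j 1) l := by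
  classical
  conv_lhs => rw [← Finsupp.sum_single x, map_finsuppSum]
  rw [Finsupp.sum, Finsupp.sum, Finset.sum_apply']
  refine Finset.sum_congr rfl fun j _ => ?_
  have : Finsupp.single j (x j) = x j • (Finsupp.single j (1 : MonoidAlgebra k Γ)) := by
    rw [Finsupp.smul_single, smul_eq_mul, mul_one]
  rw [this, map_smul, Finsupp.smul_apply, smul_eq_mul]

theorem exists_of_mul {a b : MonoidAlgebra k Γ} {g : Γ} (h : (a * b).coeff g ≠ 0) :
    ∃ g₁ g₂, a.coeff g₁ ≠ 0 ∧ b.coeff g₂ ≠ 0 ∧ g₁ * g₂ = g := by
  classical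
  by_contra hc
  push Not at hc
  refine h ?_
  have h1 : g ∉ (a * b).coeff.support := by
    intro h2
    obtain ⟨g₁, h3, g₂, h4, h5⟩ := Finset.mem_mul.1 (MonoidAlgebra.support_coeff_mul_subset a b h2)
    exact hc g₁ g₂ (Finsupp.mem_support_iff.1 h3) (Finsupp.mem_support_iff.1 h4) h5
  exact Finsupp.notMem_support_iff.1 h1

theorem spt_comp {A A' A'' : Loc k P} {f : A.F →ₗ[MonoidAlgebra k Γ] A'.F}
    {h : A'.F →ₗ[MonoidAlgebra k Γ] A''.F} (hf : Spt A A' f) (hh : Spt A' A'' h) :
    Spt A A'' (h ∘ₗ f) := by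
  classical
  intro i l g hg
  rw [LinearMap.comp_apply, map_apply, Finsupp.sum] at hg
  have : ∃ j, ((f (Finsupp.single i 1)) j * h (Finsupp.single j 1) l).coeff g ≠ 0 := by
    by_contra hc
    push Not at hc
    refine hg ?_
    rw [MonoidAlgebra.coeff_sum, Finset.sum_apply']
    exact Finset.sum_eq_zero fun j _ => hc j
  obtain ⟨j, hj⟩ := this
  obtain ⟨g₁, g₂, h1, h2, rfl⟩ := exists_of_mul hj
  have h3 := P.smul g₁ (hh j l g₂ h2)
  rw [← mul_smul] at h3
  exact P.trans (hf i j g₁ h1) h3

/-- Morphisms. -/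
def Hm (A A' : Loc k P) : AddSubgroup (A.F →ₗ[MonoidAlgebra k Γ] A'.F) where
  carrier := {f | Spt A A' f}
  zero_mem' := fun i j g hg => absurd rfl hg
  add_mem' := by
    intro f h hf hh i j g hg
    by_contra hc
    refine hg ?_
    rw [LinearMap.add_apply, Finsupp.add_apply, MonoidAlgebra.coeff_add, Finsupp.add_apply,
      not_not.1 fun h1 => hc (hf i j g h1), not_not.1 fun h1 => hc (hh i j g h1), add_zero]
  neg_mem' := by
    intro f hf i j g hg
    refine hf i j g fun h1 => hg ?_
    rw [LinearMap.neg_apply, Finsupp.neg_apply, MonoidAlgebra.coeff_neg, Finsupp.neg_apply, h1,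
      neg_zero]

noncomputable instance : Category.{u} (Loc k P) where
  Hom A A' := Hm A A'
  id A := ⟨LinearMap.id, spt_id A⟩
  comp f h := ⟨h.1 ∘ₗ f.1, spt_comp f.2 h.2⟩

/-- The linear map of a morphism. -/
def lin {A A' : Loc k P} (f : A ⟶ A') : A.F →ₗ[MonoidAlgebra k Γ] A'.F := f.1

/-- The morphism given by a linear map. -/
def hm {A A' : Loc k P} (f : A.F →ₗ[MonoidAlgebra k Γ] A'.F) (hf : Spt A A' f) : A ⟶ A' := ⟨f, hf⟩

theorem spt_lin {A A' : Loc k P} (f : A ⟶ A') : Spt A A' (lin f) := f.2

@[simp] theorem lin_hm {A A' : Loc k P} (f : A.F →ₗ[MonoidAlgebra k Γ] A'.F) (hf : Spt A A' f) :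
    lin (hm f hf) = f := rfl

@[simp] theorem lin_id (A : Loc k P) : lin (𝟙 A) = LinearMap.id := rfl

@[simp] theorem lin_comp {A A' A'' : Loc k P} (f : A ⟶ A') (h : A' ⟶ A'') :
    lin (f ≫ h) = lin h ∘ₗ lin f := rfl

@[ext] theorem hom_ext {A A' : Loc k P} {f h : A ⟶ A'} (H : lin f = lin h) : f = h :=
  Subtype.ext H

noncomputable instance (A A' : Loc k P) : AddCommGroup (A ⟶ A') := inferInstanceAs (AddCommGroup (Hm A A'))

@[simp] theorem lin_add {A A' : Loc k P} (f h : A ⟶ A') : lin (f + h) = lin f + lin h := rfl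

@[simp] theorem lin_zero {A A' : Loc k P} : lin (0 : A ⟶ A') = 0 := rfl

@[simp] theorem lin_neg {A A' : Loc k P} (f : A ⟶ A') : lin (-f) = -lin f := rfl

@[simp] theorem lin_sub {A A' : Loc k P} (f h : A ⟶ A') : lin (f - h) = lin f - lin h := rfl

noncomputable instance : Preadditive (Loc k P) where
  add_comp A A' A'' f f' g := hom_ext (LinearMap.comp_add _ _ _)
  comp_add A A' A'' f g g' := hom_ext (LinearMap.add_comp _ _ _)

/-- Equality on the basis. -/
theorem ext_basis {A A' : Loc k P} {f h : A ⟶ A'}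
    (H : ∀ i, lin f (Finsupp.single i 1) = lin h (Finsupp.single i 1)) : f = h := by
  refine hom_ext (Finsupp.lhom_ext fun i b => ?_)
  have : Finsupp.single i b = b • (Finsupp.single i (1 : MonoidAlgebra k Γ)) := by
    rw [Finsupp.smul_single, smul_eq_mul, mul_one]
  rw [this, map_smul, map_smul, H]

/-- The morphism with given images of the basis. -/
noncomputable def ofB {A A' : Loc k P} (c : A.ι → A'.F)
    (hc : ∀ i j g, (c i j).coeff g ≠ 0 → P.le (A.loc i) (g • A'.loc j)) : A ⟶ A' :=
  hm (Finsupp.linearCombination _ c) (by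
    intro i j g hg
    rw [Finsupp.linearCombination_single, one_smul] at hg
    exact hc i j g hg)

@[simp] theorem lin_ofB {A A' : Loc k P} (c : A.ι → A'.F)
    (hc : ∀ i j g, (c i j).coeff g ≠ 0 → P.le (A.loc i) (g • A'.loc j)) (i : A.ι) :
    lin (ofB c hc) (Finsupp.single i 1) = c i := by
  rw [ofB, lin_hm, Finsupp.linearCombination_single, one_smul]

open Classical in
/-- The morphism given by a partial map of the bases. -/
noncomputable def par {A A' : Loc k P} (α : A.ι → Option A'.ι)
    (h : ∀ i j, α i = some j → P.le (A.loc i) (A'.loc j)) : A ⟶ A' :=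
  ofB (fun i => (α i).elim 0 fun j => Finsupp.single j 1) (by
    intro i j g hg
    cases hα : α i with
    | none =>
      rw [hα] at hg
      exact absurd rfl hg
    | some j' =>
      rw [hα] at hg
      simp only [Option.elim_some, Finsupp.single_apply] at hg
      split_ifs at hg with h1
      · subst h1
        rw [MonoidAlgebra.one_def, MonoidAlgebra.coeff_single, Finsupp.single_apply] at hg
        split_ifs at hg with h2
        · rw [← h2, one_smul]
          exact h i j' hα
        · exact absurd rfl hg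
      · exact absurd rfl hg)

theorem par_some {A A' : Loc k P} (α : A.ι → Option A'.ι)
    (h : ∀ i j, α i = some j → P.le (A.loc i) (A'.loc j)) {i : A.ι} {j : A'.ι} (hi : α i = some j) :
    lin (par α h) (Finsupp.single i 1) = Finsupp.single j 1 := by
  rw [par, lin_ofB, hi]
  rfl

theorem par_none {A A' : Loc k P} (α : A.ι → Option A'.ι)
    (h : ∀ i j, α i = some j → P.le (A.loc i) (A'.loc j)) {i : A.ι} (hi : α i = none) :
    lin (par α h) (Finsupp.single i 1) = 0 := by
  rw [par, lin_ofB, hi]
  rfl

/-! ### Zero object and biproducts -/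

theorem isZero_of_isEmpty (A : Loc k P) [IsEmpty A.ι] : Limits.IsZero A := by
  rw [Limits.IsZero.iff_id_eq_zero]
  exact ext_basis fun i => isEmptyElim i

instance : Limits.HasZeroObject (Loc k P) := ⟨⟨⟨PEmpty, isEmptyElim⟩, isZero_of_isEmpty _⟩⟩

/-- The sum. -/
abbrev sm (A A' : Loc k P) : Loc k P := ⟨A.ι ⊕ A'.ι, Sum.elim A.loc A'.loc⟩

/-- The first projection. -/
noncomputable def sFst (A A' : Loc k P) : sm A A' ⟶ A :=
  par (A := sm A A') (A' := A) (fun i => Sum.elim some (fun _ => none) i) (by
    rintro (i | i) j h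
    · cases h
      exact P.refl _
    · cases h)

/-- The second projection. -/
noncomputable def sSnd (A A' : Loc k P) : sm A A' ⟶ A' :=
  par (A := sm A A') (A' := A') (fun i => Sum.elim (fun _ => none) some i) (by
    rintro (i | i) j h
    · cases h
    · cases h
      exact P.refl _)

/-- The first inclusion. -/
noncomputable def sInl (A A' : Loc k P) : A ⟶ sm A A' :=
  par (A := A) (A' := sm A A') (fun i => some (Sum.inl i)) (by
    rintro i j h
    cases h
    exact P.refl _)

/-- The second inclusion. -/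
noncomputable def sInr (A A' : Loc k P) : A' ⟶ sm A A' :=
  par (A := A') (A' := sm A A') (fun i => some (Sum.inr i)) (by
    rintro i j h
    cases h
    exact P.refl _)

@[simp] theorem sFst_inl (A A' : Loc k P) (i : A.ι) :
    lin (sFst A A') (Finsupp.single (Sum.inl i) 1) = Finsupp.single i 1 :=
  par_some (A := sm A A') (A' := A) _ _ rfl

@[simp] theorem sFst_inr (A A' : Loc k P) (i : A'.ι) :
    lin (sFst A A') (Finsupp.single (Sum.inr i) 1) = 0 :=
  par_none (A := sm A A') (A' := A) _ _ rfl

@[simp] theorem sSnd_inl (A A' : Loc k P) (i : A.ι) :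
    lin (sSnd A A') (Finsupp.single (Sum.inl i) 1) = 0 :=
  par_none (A := sm A A') (A' := A') _ _ rfl

@[simp] theorem sSnd_inr (A A' : Loc k P) (i : A'.ι) :
    lin (sSnd A A') (Finsupp.single (Sum.inr i) 1) = Finsupp.single i 1 :=
  par_some (A := sm A A') (A' := A') _ _ rfl

@[simp] theorem sInl_single (A A' : Loc k P) (i : A.ι) :
    lin (sInl A A') (Finsupp.single i 1) = Finsupp.single (Sum.inl i) 1 :=
  par_some (A := A) (A' := sm A A') _ _ rfl

@[simp] theorem sInr_single (A A' : Loc k P) (i : A'.ι) :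
    lin (sInr A A') (Finsupp.single i 1) = Finsupp.single (Sum.inr i) 1 :=
  par_some (A := A') (A' := sm A A') _ _ rfl

/-- The bicone. -/
noncomputable def bic (A A' : Loc k P) : Limits.BinaryBicone A A' where
  pt := sm A A'
  fst := sFst A A'
  snd := sSnd A A'
  inl := sInl A A'
  inr := sInr A A'
  inl_fst := ext_basis fun i => by
    rw [lin_comp, LinearMap.comp_apply, sInl_single, sFst_inl]
    rfl
  inl_snd := ext_basis fun i => by
    rw [lin_comp, LinearMap.comp_apply, sInl_single, sSnd_inl]
    rfl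
  inr_fst := ext_basis fun i => by
    rw [lin_comp, LinearMap.comp_apply, sInr_single, sFst_inr]
    rfl
  inr_snd := ext_basis fun i => by
    rw [lin_comp, LinearMap.comp_apply, sInr_single, sSnd_inr]
    rfl

theorem sm_total (A A' : Loc k P) : sFst A A' ≫ sInl A A' + sSnd A A' ≫ sInr A A' = 𝟙 (sm A A') := by
  refine ext_basis ?_
  rintro (i | i)
  · rw [lin_add, LinearMap.add_apply, lin_comp, lin_comp, LinearMap.comp_apply,
      LinearMap.comp_apply, sFst_inl, sSnd_inl, map_zero, add_zero, sInl_single]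
    rfl
  · rw [lin_add, LinearMap.add_apply, lin_comp, lin_comp, LinearMap.comp_apply,
      LinearMap.comp_apply, sFst_inr, sSnd_inr, map_zero, zero_add, sInr_single]
    rfl

instance : Limits.HasBinaryBiproducts (Loc k P) where
  has_binary_biproduct A A' := Limits.HasBinaryBiproduct.mk
    ⟨bic A A', Limits.isBinaryBilimitOfTotal _ (sm_total A A')⟩

end Loc

end

end Pool.Agent.NegK.NT
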