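import Pool.Agent.Lib.MP_28303a_al.NT.Fun

/-! # Restriction of located free modules from `k[t]` to `k` -/

set_option autoImplicit false
set_option linter.unusedSectionVars false
set_option linter.unusedVariables false

namespace Pool.Agent.NegK.NT

universe u

open CategoryTheory

namespace Loc

variable {k : Type u} [Ring k] {Γ : Type u} [Group Γ] {B : Type u} [MulAction Γ B]
  {P : Pre Γ B}

/-- Coefficients of polynomials. -/
noncomputable def pc : Polynomial k →+ (ℕ →₀ k) where
  toFun p := Finsupp.onFinset p.support p.coeff fun n hn => Polynomial.mem_support_iff.2 hn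
  map_zero' := by
    ext n
    rfl
  map_add' p q := by
    ext n
    exact Polynomial.coeff_add p q n

/-- Coefficients of elements of group rings. -/
noncomputable def mc (A : Type u) [Ring A] : MonoidAlgebra A Γ →+ (Γ →₀ A) where
  toFun b := b.coeff
  map_zero' := rfl
  map_add' a b := rfl

/-- Restriction to `k`. -/
noncomputable def rs (ι : Type u) :
    (ι →₀ MonoidAlgebra (Polynomial k) Γ) →+ (ι × ℕ →₀ MonoidAlgebra k Γ) :=
  Finsupp.liftAddHom fun i => (Finsupp.liftAddHom fun g => (Finsupp.liftAddHom fun n =>
    (Finsupp.singleAddHom (i, n)).comp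
      { toFun := fun c : k => (MonoidAlgebra.single g c : MonoidAlgebra k Γ)
        map_zero' := MonoidAlgebra.single_zero _
        map_add' := fun _ _ => MonoidAlgebra.single_add _ _ _ }).comp pc).comp
    (mc (Polynomial k))

theorem rs_single (ι : Type u) (i : ι) (g : Γ) (n : ℕ) (c : k) :
    rs ι (Finsupp.single i (MonoidAlgebra.single g (Polynomial.monomial n c))) =
      Finsupp.single (i, n) (MonoidAlgebra.single g c : MonoidAlgebra k Γ) := by
  classical
  have h1 : mc (Polynomial k) (MonoidAlgebra.single g (Polynomial.monomial n c)) =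
      Finsupp.single g (Polynomial.monomial n c) := rfl
  have h2 : pc (Polynomial.monomial n c) = Finsupp.single n c := by
    ext m
    rw [Finsupp.single_apply]
    exact Polynomial.coeff_monomial
  rw [rs, Finsupp.liftAddHom_apply_single, AddMonoidHom.comp_apply, h1,
    Finsupp.liftAddHom_apply_single, AddMonoidHom.comp_apply, h2,
    Finsupp.liftAddHom_apply_single]
  rfl

/-- Induction for elements of free modules over `k[t][Γ]`. -/
theorem ind_poly {ι : Type u} {p : (ι →₀ MonoidAlgebra (Polynomial k) Γ) → Prop} (h0 : p 0)
    (ha : ∀ x y, p x → p y → p (x + y))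
    (hs : ∀ i g n c, p (Finsupp.single i (MonoidAlgebra.single g (Polynomial.monomial n c)))) :
    ∀ x, p x := by
  intro x
  induction x using Finsupp.induction_linear with
  | zero => exact h0
  | add x y hx hy => exact ha x y hx hy
  | single i b =>
    induction b using MonoidAlgebra.induction_linear with
    | zero =>
      rw [Finsupp.single_zero]
      exact h0
    | add a b hx hy =>
      rw [Finsupp.single_add]
      exact ha _ _ hx hy
    | single g q =>
      induction q using Polynomial.induction_on' with
      | add q q' hx hy =>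
        rw [MonoidAlgebra.single_add, Finsupp.single_add]
        exact ha _ _ hx hy
      | monomial n c => exact hs i g n c

theorem coeff_rs (ι : Type u) (x : ι →₀ MonoidAlgebra (Polynomial k) Γ) (i : ι) (n : ℕ) (g : Γ) :
    (rs ι x (i, n)).coeff g = ((x i).coeff g).coeff n := by
  classical
  revert x
  refine ind_poly ?_ ?_ ?_
  · rw [map_zero]
    rfl
  · intro x y hx hy
    rw [map_add, Finsupp.add_apply, MonoidAlgebra.coeff_add, Finsupp.add_apply, hx, hy,
      Finsupp.add_apply, MonoidAlgebra.coeff_add, Finsupp.add_apply, Polynomial.coeff_add]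
  · intro i' g' n' c
    rw [rs_single, Finsupp.single_apply, Finsupp.single_apply]
    by_cases h1 : i' = i
    · subst h1
      by_cases h2 : n' = n
      · subst h2
        rw [if_pos rfl, if_pos rfl, MonoidAlgebra.coeff_single, MonoidAlgebra.coeff_single,
          Finsupp.single_apply, Finsupp.single_apply]
        by_cases h3 : g' = g
        · rw [if_pos h3, if_pos h3, Polynomial.coeff_monomial, if_pos rfl]
        · rw [if_neg h3, if_neg h3, Polynomial.coeff_zero]
      · rw [if_neg fun h => h2 (congrArg Prod.snd h), if_pos rfl, MonoidAlgebra.coeff_single,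
          Finsupp.single_apply]
        split_ifs
        · rw [Polynomial.coeff_monomial, if_neg h2]
          rfl
        · rfl
    · rw [if_neg fun h => h1 (congrArg Prod.fst h), if_neg h1]
      rfl

theorem rs_ext {ι : Type u} {x y : ι →₀ MonoidAlgebra (Polynomial k) Γ} (h : rs ι x = rs ι y) :
    x = y := by
  ext i g n
  have := congrArg (fun z : ι × ℕ →₀ MonoidAlgebra k Γ => (z (i, n)).coeff g) h
  simpa only [coeff_rs] using this

theorem rs_smul (ι : Type u) (b : MonoidAlgebra k Γ)
    (x : ι →₀ MonoidAlgebra (Polynomial k) Γ) :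
    rs ι (MonoidAlgebra.mapRingHom Γ Polynomial.C b • x) = b • rs ι x := by
  induction b using MonoidAlgebra.induction_linear with
  | zero => rw [map_zero, zero_smul, zero_smul, map_zero]
  | add a b hx hy => rw [map_add, add_smul, add_smul, map_add, hx, hy]
  | single g c =>
    revert x
    refine ind_poly ?_ ?_ ?_
    · rw [smul_zero, map_zero, smul_zero]
    · intro x y hx hy
      rw [smul_add, map_add, map_add, smul_add, hx, hy]
    · intro i g' n c'
      rw [MonoidAlgebra.mapRingHom_single, Finsupp.smul_single, smul_eq_mul,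
        MonoidAlgebra.single_mul_single, Polynomial.C_mul_monomial, rs_single, rs_single,
        Finsupp.smul_single, smul_eq_mul, MonoidAlgebra.single_mul_single]

/-- The powers of `t`. -/
noncomputable abbrev tp (k Γ : Type u) [Ring k] [Group Γ] (n : ℕ) :
    MonoidAlgebra (Polynomial k) Γ := MonoidAlgebra.single 1 (Polynomial.X ^ n)

theorem rs_tp (ι : Type u) (i : ι) (n : ℕ) :
    rs ι (tp k Γ n • Finsupp.single i (1 : MonoidAlgebra (Polynomial k) Γ)) =
      Finsupp.single (i, n) 1 := by
  rw [Finsupp.smul_single, smul_eq_mul, mul_one, tp, ← Polynomial.monomial_one_right_eq_X_pow,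
    rs_single]
  rfl

/-- The object of the restriction. -/
abbrev ro (A : Loc (Polynomial k) P) : Loc k P := ⟨A.ι × ℕ, fun i => A.loc i.1⟩

/-- The morphism of the restriction. -/
noncomputable def rm {A A' : Loc (Polynomial k) P} (f : A ⟶ A') : ro A ⟶ ro A' :=
  ofB (A := ro A) (A' := ro A')
    (fun i => rs A'.ι (tp k Γ i.2 • lin f (Finsupp.single i.1 1))) (by
    rintro ⟨i, n⟩ ⟨j, m⟩ g hg
    rw [coeff_rs] at hg
    refine spt_lin f i j g fun h => hg ?_
    rw [Finsupp.smul_apply, smul_eq_mul, MonoidAlgebra.coeff_single_mul_apply, inv_one, one_mul, h,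
      mul_zero, Polynomial.coeff_zero])

theorem rm_single {A A' : Loc (Polynomial k) P} (f : A ⟶ A') (i : A.ι) (n : ℕ) :
    lin (rm f) (Finsupp.single (i, n) 1) = rs A'.ι (tp k Γ n • lin f (Finsupp.single i 1)) :=
  lin_ofB (A := ro A) (A' := ro A') _ _ (i, n)

theorem rm_rs {A A' : Loc (Polynomial k) P} (f : A ⟶ A') (x : A.F) :
    lin (rm f) (rs A.ι x) = rs A'.ι (lin f x) := by
  revert x
  refine ind_poly ?_ ?_ ?_
  · rw [map_zero, map_zero, map_zero, map_zero]
  · intro x y hx hy
    rw [map_add, map_add, map_add, map_add, hx, hy]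
  · intro i g n c
    have h1 : Finsupp.single i (MonoidAlgebra.single g (Polynomial.monomial n c)) =
        MonoidAlgebra.mapRingHom Γ Polynomial.C (MonoidAlgebra.single g c) •
          (tp k Γ n • Finsupp.single i (1 : MonoidAlgebra (Polynomial k) Γ)) := by
      rw [Finsupp.smul_single, Finsupp.smul_single, smul_eq_mul, smul_eq_mul, mul_one,
        MonoidAlgebra.mapRingHom_single, MonoidAlgebra.single_mul_single, mul_one,
        Polynomial.C_mul_X_pow_eq_monomial]
    rw [h1, rs_smul, rs_tp, map_smul (lin (rm f)), map_smul (lin f), map_smul (lin f), rs_smul,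
      rm_single]

/-- Restriction from `k[t]` to `k`. -/
noncomputable def res : Loc (Polynomial k) P ⥤ Loc k P where
  obj A := ro A
  map f := rm f
  map_id A := ext_basis (A := ro A) (A' := ro A) fun i => by
    obtain ⟨i, n⟩ := i
    rw [rm_single, lin_id, LinearMap.id_apply, rs_tp]
    rfl
  map_comp {A A' A''} f g := ext_basis (A := ro A) (A' := ro A'') fun i => by
    obtain ⟨i, n⟩ := i
    rw [lin_comp, LinearMap.comp_apply, rm_single, rm_single, rm_rs, lin_comp,
      LinearMap.comp_apply, map_smul (lin g)]

instance : (res (k := k) (P := P)).Additive where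
  map_add {A A'} {f g} := ext_basis (A := ro A) (A' := ro A') fun i => by
    obtain ⟨i, n⟩ := i
    change lin (rm (f + g)) _ = lin (rm f + rm g) _
    rw [lin_add, LinearMap.add_apply, rm_single, rm_single, rm_single, lin_add,
      LinearMap.add_apply, smul_add, map_add]

end Loc

end Pool.Agent.NegK.NT
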