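import Mathlib

/-! # n trees: formal lemmas on triangulated categories -/

set_option autoImplicit false
set_option linter.unusedSectionVars false
set_option linter.unusedVariables false

namespace Pool.Agent.NegK.NT

open CategoryTheory Limits Pretriangulated

universe v₁ u₁ v₂ u₂ v₃ u₃

section cone

variable {C : Type u₁} [Category.{v₁} C] [HasZeroObject C] [HasShift C ℤ] [Preadditive C]
  [∀ n : ℤ, (shiftFunctor C n).Additive] [Pretriangulated C]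

/-- The map between cones. -/
theorem exists_cone_map {A B A' B' Z Z' : C} {f : A ⟶ B} {g : B ⟶ Z} {h : Z ⟶ A⟦(1 : ℤ)⟧}
    (hT : Triangle.mk f g h ∈ distTriang C) {f' : A' ⟶ B'} {g' : B' ⟶ Z'}
    {h' : Z' ⟶ A'⟦(1 : ℤ)⟧} (hT' : Triangle.mk f' g' h' ∈ distTriang C) (a : A ⟶ A')
    (b : B ⟶ B') (hab : f ≫ b = a ≫ f') :
    ∃ c : Z ⟶ Z', g ≫ c = b ≫ g' ∧ h ≫ a⟦(1 : ℤ)⟧' = c ≫ h' := by
  obtain ⟨c, h1, h2⟩ := complete_distinguished_triangle_morphism _ _ hT hT' a b hab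
  exact ⟨c, h1, h2⟩

/-- A map of cones over isomorphisms is an isomorphism. -/
theorem isIso_cone_map {A B A' B' Z Z' : C} {f : A ⟶ B} {g : B ⟶ Z} {h : Z ⟶ A⟦(1 : ℤ)⟧}
    (hT : Triangle.mk f g h ∈ distTriang C) {f' : A' ⟶ B'} {g' : B' ⟶ Z'}
    {h' : Z' ⟶ A'⟦(1 : ℤ)⟧} (hT' : Triangle.mk f' g' h' ∈ distTriang C) (a : A ⟶ A')
    (b : B ⟶ B') (hab : f ≫ b = a ≫ f') [IsIso a] [IsIso b] (c : Z ⟶ Z')
    (h1 : g ≫ c = b ≫ g') (h2 : h ≫ a⟦(1 : ℤ)⟧' = c ≫ h') : IsIso c :=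
  isIso₃_of_isIso₁₂ (T := Triangle.mk f g h) (T' := Triangle.mk f' g' h')
    { hom₁ := a, hom₂ := b, hom₃ := c, comm₁ := hab, comm₂ := h1, comm₃ := h2 } hT hT'
    (show IsIso a from inferInstance) (show IsIso b from inferInstance)

theorem yon2 {A B Z : C} {f : A ⟶ B} {g : B ⟶ Z} {h : Z ⟶ A⟦(1 : ℤ)⟧}
    (hT : Triangle.mk f g h ∈ distTriang C) {X : C} (x : B ⟶ X) (hx : f ≫ x = 0) :
    ∃ y : Z ⟶ X, x = g ≫ y := Triangle.yoneda_exact₂ _ hT x hx

theorem coyon2 {A B Z : C} {f : A ⟶ B} {g : B ⟶ Z} {h : Z ⟶ A⟦(1 : ℤ)⟧}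
    (hT : Triangle.mk f g h ∈ distTriang C) {X : C} (x : X ⟶ B) (hx : x ≫ g = 0) :
    ∃ y : X ⟶ A, x = y ≫ f := Triangle.coyoneda_exact₂ _ hT x hx

theorem cone_zero {A Z : C} {f : A ⟶ A} [IsIso f] {g : A ⟶ Z} {h : Z ⟶ A⟦(1 : ℤ)⟧}
    (hT : Triangle.mk f g h ∈ distTriang C) : IsZero Z :=
  Triangle.isZero₃_of_isIso₁ _ hT (show IsIso f from inferInstance)

/-- `u = 1 - r s + r z s` and `z` have isomorphic cones if `s r = 1`. -/
theorem cone_idem {A₀ A₁ V W : C} (s : A₀ ⟶ A₁) (r : A₁ ⟶ A₀) (hsr : s ≫ r = 𝟙 A₀)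
    (z : A₀ ⟶ A₀) (u : A₁ ⟶ A₁) (hu : u = 𝟙 A₁ - r ≫ s + r ≫ z ≫ s)
    {g : A₀ ⟶ V} {h : V ⟶ A₀⟦(1 : ℤ)⟧} (hV : Triangle.mk z g h ∈ distTriang C)
    {g' : A₁ ⟶ W} {h' : W ⟶ A₁⟦(1 : ℤ)⟧} (hW : Triangle.mk u g' h' ∈ distTriang C) :
    Nonempty (V ≅ W) := by
  obtain ⟨K, p, δ, hK⟩ := distinguished_cocone_triangle s
  have hmono : Mono s := ⟨fun a b hab => by
    have := congrArg (· ≫ r) hab
    simpa only [Category.assoc, hsr, Category.comp_id] using this⟩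
  have hepi : Epi p := Triangle.epi₂ _ hK (Triangle.mor₃_eq_zero_of_mono₁ _ hK hmono)
  have hsp : s ≫ p = 0 := comp_distTriang_mor_zero₁₂ _ hK
  obtain ⟨k, hk⟩ := yon2 hK (𝟙 A₁ - r ≫ s)
    (by rw [Preadditive.comp_sub, ← Category.assoc, hsr]; simp)
  have hkr : k ≫ r = 0 := by
    rw [← cancel_epi p, ← Category.assoc, ← hk, Preadditive.sub_comp, Category.assoc, hsr]
    simp
  obtain ⟨O, o, ω, hO⟩ := distinguished_cocone_triangle (𝟙 K)
  have hO0 : IsZero O := cone_zero hO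
  -- the maps
  have e1 : z ≫ s = s ≫ u := by
    rw [hu, Preadditive.comp_add, Preadditive.comp_sub, ← Category.assoc s r s, hsr,
      ← Category.assoc s r (z ≫ s), hsr]
    simp
  have e2 : u ≫ r = r ≫ z := by
    rw [hu, Preadditive.add_comp, Preadditive.sub_comp, Category.assoc, hsr, Category.assoc,
      Category.assoc, hsr]
    simp
  have e3 : u ≫ p = p ≫ 𝟙 K := by
    rw [hu, Preadditive.add_comp, Preadditive.sub_comp, Category.assoc, hsp, Category.assoc,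
      Category.assoc, hsp]
    simp
  have e4 : 𝟙 K ≫ k = k ≫ u := by
    rw [hu, Preadditive.comp_add, Preadditive.comp_sub, ← Category.assoc k r s, hkr,
      ← Category.assoc k r (z ≫ s), hkr]
    simp
  obtain ⟨S, hS1, hS2⟩ := exists_cone_map hV hW s s e1
  obtain ⟨R, hR1, hR2⟩ := exists_cone_map hW hV r r e2
  obtain ⟨P, hP1, hP2⟩ := exists_cone_map hW hO p p e3
  obtain ⟨K', hK1, hK2⟩ := exists_cone_map hO hW k k e4
  have hz1 : IsIso (S ≫ R) := by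
    refine isIso_cone_map hV hV (𝟙 A₀) (𝟙 A₀) (by simp) (S ≫ R) ?_ ?_
    · rw [← Category.assoc, hS1, Category.assoc, hR1, ← Category.assoc, hsr]
    · rw [Category.assoc, ← hR2, ← Category.assoc, ← hS2, Category.assoc, ← Functor.map_comp, hsr]
  have hz2 : IsIso (R ≫ S) := by
    have h0 : P ≫ K' = 0 := hO0.eq_of_src K' 0 ▸ by simp
    have h1 : R ≫ S = R ≫ S + P ≫ K' := by rw [h0, add_zero]
    rw [h1]
    have h2 : r ≫ s + p ≫ k = 𝟙 A₁ := by rw [← hk]; abel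
    refine isIso_cone_map hW hW (𝟙 A₁) (𝟙 A₁) (by simp) _ ?_ ?_
    · rw [Preadditive.comp_add, ← Category.assoc, hR1, Category.assoc, hS1, ← Category.assoc g' P,
        hP1, Category.assoc p, hK1, ← Category.assoc, ← Category.assoc, ← Preadditive.add_comp, h2]
    · rw [Preadditive.add_comp, Category.assoc, ← hS2, ← Category.assoc, ← hR2, Category.assoc P,
        ← hK2, ← Category.assoc P, ← hP2, Category.assoc, Category.assoc, ← Functor.map_comp,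
        ← Functor.map_comp, ← Preadditive.comp_add, ← Functor.map_add, h2]
  have hS : IsIso S := by
    have a1 : IsSplitMono S := ⟨⟨R ≫ inv (S ≫ R), by rw [← Category.assoc]; simp⟩⟩
    have a2 : IsSplitEpi S := ⟨⟨inv (R ≫ S) ≫ R, by rw [Category.assoc]; simp⟩⟩
    exact isIso_of_mono_of_isSplitEpi S
  exact ⟨asIso S⟩

end cone

end Pool.Agent.NegK.NT
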